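import Pool.Agent.Lib.MP_5349a4_pr.M.Iface2
import Pool.Agent.Lib.MP_5349a4_pr.M.Base

/-!
# BOOT (section 6): the critical point
-/

set_option autoImplicit false
open MeasureTheory Set
open scoped ENNReal NNReal

namespace Pool.Agent.Lib.MP_5349a4_pr.H70

/-- the set of subcritical intensities -/
def Lam (d : ℕ) : Set ℝ≥0 := {lam | ∃ s : ℝ, 0 ≤ s ∧ phi d lam s < 1}

theorem gd_pos (d : ℕ) (hd : 1 ≤ d) : 0 < gd d := by
  unfold gd
  have : (0 : ℝ≥0) < (d : ℝ≥0) := by exact_mod_cast hd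
  positivity

theorem vol_pos (d : ℕ) : 0 < volume (bal (0 : Eu d) 1) := by
  unfold bal
  exact Metric.measure_closedBall_pos volume 0 one_pos

theorem vol_lt_top (d : ℕ) : volume (bal (0 : Eu d) 1) < ∞ := by
  unfold bal
  exact measure_closedBall_lt_top

/-- step of the continuity argument -/
theorem half_bound {d : ℕ} (hd : 1 ≤ d)
    (ht : TauFacts d)
    (hE : ∀ lam : ℝ≥0, Hyp d lam → ∀ s : ℝ, 0 ≤ s → Err d lam s ≤ (gd d / 2 : ℝ≥0))
    (hR : ∀ lam : ℝ≥0, chi d lam ≠ ∞ → ∀ s : ℝ, 0 ≤ s → phi d lam s ≤ 1 + Err d lam s)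
    (hSub : SubcStatement) (lam : ℝ≥0) (hlam : lam ∈ Lam d) :
    ∀ s : ℝ, 0 ≤ s → phi d lam s ≤ 1 + ((gd d / 2 : ℝ≥0) : ℝ≥0∞) := by
  obtain ⟨hchi, hmono, hlip, htail, hsmall⟩ := hSub d hd ht
  obtain ⟨s0, hs0, hphi0⟩ := hlam
  have hfin : ∀ t : ℝ≥0, t ≤ lam → chi d t ≠ ∞ := by
    intro t htl
    exact hchi t s0 hs0 ((hmono t lam s0 hs0 htl).trans_lt hphi0)
  have hg := gd_pos d hd
  obtain ⟨s₁, hs₁⟩ := htail lam (hfin lam le_rfl) 1 one_pos
  obtain ⟨C, hC⟩ := hlip lam s₁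
  -- the improvement step
  have step : ∀ t t' : ℝ≥0, t ≤ t' → t' ≤ lam → C * (t' - t) ≤ gd d / 2 →
      (∀ s : ℝ, 0 ≤ s → phi d t s ≤ 1 + ((gd d / 2 : ℝ≥0) : ℝ≥0∞)) →
      (∀ s : ℝ, 0 ≤ s → phi d t' s ≤ 1 + ((gd d / 2 : ℝ≥0) : ℝ≥0∞)) := by
    intro t t' htt ht' hCt hP
    have hHyp : Hyp d t' := by
      intro s hs
      by_cases hss : (s₁ : ℝ) ≤ s
      · exact (hs₁ t' s ht' hss).trans (by simp)
      · push Not at hss
        calc phi d t' s ≤ phi d t s + C * ((t' - t : ℝ≥0) : ℝ≥0∞) := hC t t' s hs hss.le htt ht'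
          _ ≤ 1 + ((gd d / 2 : ℝ≥0) : ℝ≥0∞) + ((gd d / 2 : ℝ≥0) : ℝ≥0∞) := by
              gcongr
              · exact hP s hs
              · rw [← ENNReal.coe_mul]
                exact_mod_cast hCt
          _ = 1 + (gd d : ℝ≥0∞) := by
              rw [add_assoc, ← ENNReal.coe_add, add_halves]
    intro s hs
    exact (hR t' (hfin t' ht') s hs).trans (add_le_add le_rfl (hE t' hHyp s hs))
  -- induction along the points `k δ`
  obtain ⟨δ, hδ, hCδ⟩ : ∃ δ : ℝ≥0, 0 < δ ∧ C * δ ≤ gd d / 2 := by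
    refine ⟨gd d / 2 / (C + 1), by positivity, ?_⟩
    have : C * (gd d / 2 / (C + 1)) ≤ (C + 1) * (gd d / 2 / (C + 1)) := by
      gcongr
      exact le_self_add
    refine this.trans ?_
    rw [mul_div_cancel₀]
    positivity
  have hind : ∀ k : ℕ, ∀ s : ℝ, 0 ≤ s →
      phi d (min (k * δ) lam) s ≤ 1 + ((gd d / 2 : ℝ≥0) : ℝ≥0∞) := by
    intro k
    induction k with
    | zero =>
      intro s hs
      have : min (((0 : ℕ) : ℝ≥0) * δ) lam = 0 := by simp
      rw [this]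
      refine (hsmall 0 (by simp) s hs).trans ?_
      simp
    | succ k ih =>
      refine step (min (k * δ) lam) (min ((k + 1 : ℕ) * δ) lam) ?_ (min_le_right _ _) ?_ ih
      · exact min_le_min_right _ (by gcongr; simp)
      · refine le_trans ?_ hCδ
        gcongr
        rw [tsub_le_iff_left]
        have e : ((k + 1 : ℕ) : ℝ≥0) * δ = k * δ + δ := by push_cast; ring
        rw [e]
        rcases le_total (k * δ) lam with h | h
        · rw [min_eq_left h]
          exact min_le_left _ _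
        · rw [min_eq_right h]
          exact (min_le_right _ _).trans le_self_add
  obtain ⟨k, hk⟩ : ∃ k : ℕ, lam ≤ k * δ := by
    obtain ⟨k, hk⟩ := exists_nat_ge (lam / δ)
    refine ⟨k, ?_⟩
    rwa [div_le_iff₀ hδ] at hk
  intro s hs
  have := hind k s hs
  rwa [min_eq_right hk] at this

theorem boot (hSub : SubcStatement) (hE : ErrBStatement) (hR : RevStatement) (hT : TauFStatement)
    (hS : SlbStatement) : BootStatement := by
  obtain ⟨d0, hd0⟩ := hE
  refine ⟨d0 + 1, ?_⟩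
  intro d hd
  have hd1 : 1 ≤ d := by omega
  have ht : TauFacts d := hT d hd1
  have hphi : ∀ lam, phi d lam 0 = lam * volume (bal (0 : Eu d) 1) := (hS d hd1 ht).2.2.1
  have hhalf := half_bound hd1 ht (hd0 d (by omega) ht) (hR d hd1) hSub
  obtain ⟨hchi, hmono, hlip, htail, hsmall⟩ := hSub d hd1 ht
  have hg := gd_pos d hd1
  have hvp := vol_pos d
  have hvt := vol_lt_top d
  set v : ℝ≥0∞ := volume (bal (0 : Eu d) 1) with hv
  have hvr : 0 < v.toNNReal := ENNReal.toNNReal_pos hvp.ne' hvt.ne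
  have hvc : (v.toNNReal : ℝ≥0∞) = v := ENNReal.coe_toNNReal hvt.ne
  -- a positive element
  have hpos : (1 / 2 / v.toNNReal : ℝ≥0) ∈ Lam d := by
    refine ⟨0, le_rfl, ?_⟩
    have e : ((1 / 2 / v.toNNReal : ℝ≥0) : ℝ≥0∞) * v = ((1 / 2 : ℝ≥0) : ℝ≥0∞) := by
      conv_lhs => rw [← hvc]
      rw [ENNReal.toNNReal_coe, ← ENNReal.coe_mul, div_mul_cancel₀ _ hvr.ne']
    rw [hphi, e]
    have : (1 / 2 : ℝ≥0) < 1 := by
      rw [div_lt_one (by norm_num)]
      norm_num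
    exact_mod_cast this
  -- bounded
  have hbd : BddAbove (Lam d) := by
    refine ⟨(1 + gd d / 2) / v.toNNReal, ?_⟩
    intro lam hlam
    have := hhalf lam hlam 0 le_rfl
    rw [hphi, ← hvc, ← ENNReal.coe_mul] at this
    rw [le_div_iff₀ hvr]
    exact_mod_cast this
  have hdown : ∀ lam lam' : ℝ≥0, lam ≤ lam' → lam' ∈ Lam d → lam ∈ Lam d := by
    rintro lam lam' h ⟨s, hs, hp⟩
    exact ⟨s, hs, (hmono lam lam' s hs h).trans_lt hp⟩
  set lc : ℝ≥0 := sSup (Lam d) with hlc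
  have hlcpos : 0 < lc := lt_of_lt_of_le (by positivity) (le_csSup hbd hpos)
  refine ⟨lc, hlcpos, ?_, ?_⟩
  · -- (H) at the critical point
    intro s hs
    obtain ⟨C, hC⟩ := hlip lc s.toNNReal
    obtain ⟨δ, hδ, hCδ⟩ : ∃ δ : ℝ≥0, 0 < δ ∧ C * δ ≤ gd d / 2 := by
      refine ⟨gd d / 2 / (C + 1), by positivity, ?_⟩
      have : C * (gd d / 2 / (C + 1)) ≤ (C + 1) * (gd d / 2 / (C + 1)) := by
        gcongr
        exact le_self_add
      refine this.trans ?_
      rw [mul_div_cancel₀]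
      positivity
    have hlt : lc - δ < lc := tsub_lt_self hlcpos hδ
    obtain ⟨l2, hl2, hl2'⟩ := exists_lt_of_lt_csSup ⟨_, hpos⟩ hlt
    have hmem : lc - δ ∈ Lam d := hdown _ _ hl2'.le hl2
    calc phi d lc s ≤ phi d (lc - δ) s + C * ((lc - (lc - δ) : ℝ≥0) : ℝ≥0∞) :=
          hC _ _ s hs (by rw [Real.coe_toNNReal _ hs]) hlt.le le_rfl
      _ ≤ 1 + ((gd d / 2 : ℝ≥0) : ℝ≥0∞) + ((gd d / 2 : ℝ≥0) : ℝ≥0∞) := by
          gcongr
          · exact hhalf _ hmem s hs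
          · rw [← ENNReal.coe_mul]
            have : C * (lc - (lc - δ)) ≤ gd d / 2 := by
              refine le_trans ?_ hCδ
              gcongr
              exact tsub_tsub_le
            exact_mod_cast this
      _ = 1 + (gd d : ℝ≥0∞) := by
          rw [add_assoc, ← ENNReal.coe_add, add_halves]
  · intro s hs
    by_contra hcon
    push Not at hcon
    obtain ⟨C, hC⟩ := hlip (lc + 1) s.toNNReal
    obtain ⟨ε, hε, hε1⟩ : ∃ ε : ℝ≥0, 0 < ε ∧ phi d lc s + ε < 1 := by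
      obtain ⟨ε, hε, h⟩ := ENNReal.lt_iff_exists_add_pos_lt.1 hcon
      exact ⟨ε, hε, h⟩
    obtain ⟨δ, hδ, hδ1, hCδ⟩ : ∃ δ : ℝ≥0, 0 < δ ∧ δ ≤ 1 ∧ C * δ ≤ ε := by
      refine ⟨min 1 (ε / (C + 1)), by positivity, min_le_left _ _, ?_⟩
      have : C * min 1 (ε / (C + 1)) ≤ (C + 1) * (ε / (C + 1)) := by
        gcongr
        · exact le_self_add
        · exact min_le_right _ _
      refine this.trans ?_
      rw [mul_div_cancel₀]
      positivity
    have hmem : lc + δ ∈ Lam d := by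
      refine ⟨s, hs, ?_⟩
      refine lt_of_le_of_lt ?_ hε1
      calc phi d (lc + δ) s ≤ phi d lc s + C * ((lc + δ - lc : ℝ≥0) : ℝ≥0∞) :=
            hC _ _ s hs (by rw [Real.coe_toNNReal _ hs]) le_self_add (by gcongr)
        _ ≤ phi d lc s + ε := by
            gcongr
            rw [← ENNReal.coe_mul, add_tsub_cancel_left]
            exact_mod_cast hCδ
    have := le_csSup hbd hmem
    have h2 : lc < lc + δ := lt_add_of_pos_right _ hδ
    exact absurd this (not_le.2 h2)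

end Pool.Agent.Lib.MP_5349a4_pr.H70
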