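import Pool.Agent.Lib.MP_5349a4_pr.M.Iface3
import Pool.Agent.Lib.MP_5349a4_pr.M.Base

/-!
# DECR (7.3) and (A2): decay of the two-point function and of its convolution square
-/

set_option autoImplicit false
open MeasureTheory Set
open scoped ENNReal NNReal

namespace Pool.Agent.Lib.MP_5349a4_pr.H70

section
variable {d : ℕ} {lam : ℝ≥0} {κ : ℕ} {A : ℝ≥0}

theorem two_kappa_lt (hc : Crit d lam κ A) : 2 * κ + 1 ≤ d := by
  have h1 := hc.hd
  have h2 := hc.hκ
  nlinarith

theorem meas_pair {f : Eu d → Eu d → ℝ≥0∞} (hf : Measurable fun q : Eu d × Eu d => f q.1 q.2)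
    (z : Eu d) : (Measurable fun b => f z b) ∧ Measurable fun b => f b z := by
  constructor
  · exact hf.comp (measurable_const.prodMk measurable_id)
  · exact hf.comp (measurable_id.prodMk measurable_const)

theorem meas_right (ht : TauFacts d) {V : Set (Eu d)} (hV : Dom V) (z : Eu d) :
    Measurable fun b => tau lam V z b :=
  (meas_pair (f := tau lam V) (ht.meas lam V hV) z).1

theorem meas_left (ht : TauFacts d) {V : Set (Eu d)} (hV : Dom V) (z : Eu d) :
    Measurable fun b => tau lam V b z :=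
  (meas_pair (f := tau lam V) (ht.meas lam V hV) z).2

theorem tau_decay (hc : Crit d lam κ A) (ht : TauFacts d) {V : Set (Eu d)} (hV : Dom V)
    (x y : Eu d) : tau lam V x y ≤ ENNReal.ofReal (A / (max 1 (dist x y)) ^ (d - κ)) := by
  rcases le_total (dist x y) 1 with h | h
  · rw [max_eq_left h, one_pow, div_one]
    refine (ht.le_one lam V x y hV).trans ?_
    rw [← ENNReal.ofReal_one]
    exact ENNReal.ofReal_le_ofReal (by exact_mod_cast hc.hA)
  · rw [max_eq_right h]
    have hp : 0 < dist x y := by linarith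
    have h2 := hc.a2 V x y hV h
    rw [ENNReal.ofReal_div_of_pos (by positivity), ENNReal.ofReal_coe_nnreal,
      ENNReal.le_div_iff_mul_le (Or.inl (ENNReal.ofReal_pos.2 (by positivity)).ne') (Or.inl ENNReal.ofReal_ne_top)]
    exact h2

theorem ball_bound (hc : Crit d lam κ A) {V : Set (Eu d)} (hV : Dom V) (y : Eu d) {R : ℝ}
    (hR : 1 ≤ R) : lam * ∫⁻ b in V, tau lam V y b * ind (b ∈ bal y R)
      ≤ A * ENNReal.ofReal (R ^ κ) := by
  refine le_trans ?_ (hc.a1 V y y R hV hR)
  unfold wt
  exact le_add_self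

/-- pointwise domination by dyadic shells of the longer leg -/
theorem pointwise (hc : Crit d lam κ A) (ht : TauFacts d) {V : Set (Eu d)} (hV : Dom V)
    (x y b : Eu d) (ρ : ℝ) (hρ : ρ = max 1 (dist x y / 2)) :
    tau lam V x b * tau lam V b y ≤ ∑' j : ℕ, ENNReal.ofReal (A / (2 ^ j * ρ) ^ (d - κ)) *
      (tau lam V y b * ind (b ∈ bal y (2 ^ (j + 1) * ρ)) +
        tau lam V x b * ind (b ∈ bal x (2 ^ (j + 1) * ρ))) := by
  have hρ1 : 1 ≤ ρ := by rw [hρ]; exact le_max_left _ _
  have hρ0 : 0 < ρ := by linarith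
  have key : ∀ p : ℝ, ρ ≤ p → ∃ j : ℕ, 2 ^ j * ρ ≤ p ∧ p < 2 ^ (j + 1) * ρ := by
    intro p hp
    obtain ⟨j, h1, h2⟩ := exists_nat_pow_near (x := p / ρ) (y := 2)
      (by rwa [le_div_iff₀ hρ0, one_mul]) one_lt_two
    exact ⟨j, by rwa [le_div_iff₀ hρ0] at h1, by rwa [div_lt_iff₀ hρ0] at h2⟩
  have htri : dist x y ≤ dist x b + dist b y := dist_triangle _ _ _
  rcases le_total (dist b y) (dist x b) with h | h
  · obtain ⟨j, h1, h2⟩ := key (max 1 (dist x b))
      (by rw [hρ]; exact max_le_max le_rfl (by linarith))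
    refine le_trans ?_ (ENNReal.le_tsum j)
    have hmem : b ∈ bal y (2 ^ (j + 1) * ρ) := by
      unfold bal
      rw [Metric.mem_closedBall]
      exact (h.trans (le_max_right _ _)).trans h2.le
    rw [ind_of hmem, mul_one]
    calc tau lam V x b * tau lam V b y
        ≤ ENNReal.ofReal (A / (2 ^ j * ρ) ^ (d - κ)) * tau lam V y b := by
          rw [ht.symm lam V b y hV]
          gcongr
          refine (tau_decay hc ht hV x b).trans ?_
          apply ENNReal.ofReal_le_ofReal
          gcongr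
      _ ≤ _ := by
          gcongr
          exact le_self_add
  · obtain ⟨j, h1, h2⟩ := key (max 1 (dist b y))
      (by rw [hρ]; exact max_le_max le_rfl (by linarith))
    refine le_trans ?_ (ENNReal.le_tsum j)
    have hmem : b ∈ bal x (2 ^ (j + 1) * ρ) := by
      unfold bal
      rw [Metric.mem_closedBall, dist_comm]
      exact (h.trans (le_max_right _ _)).trans h2.le
    rw [ind_of hmem, mul_one]
    calc tau lam V x b * tau lam V b y
        ≤ tau lam V x b * ENNReal.ofReal (A / (2 ^ j * ρ) ^ (d - κ)) := by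
          gcongr
          refine (tau_decay hc ht hV b y).trans ?_
          apply ENNReal.ofReal_le_ofReal
          gcongr
      _ = ENNReal.ofReal (A / (2 ^ j * ρ) ^ (d - κ)) * tau lam V x b := mul_comm _ _
      _ ≤ _ := by
          gcongr
          exact le_add_self

theorem conv_decay (hc : Crit d lam κ A) (ht : TauFacts d) {V : Set (Eu d)} (hV : Dom V)
    (x y : Eu d) (ρ : ℝ) (hρ : ρ = max 1 (dist x y / 2)) :
    lam * ∫⁻ b in V, tau lam V x b * tau lam V b y
      ≤ ENNReal.ofReal (4 * (A : ℝ) ^ 2 * 2 ^ κ / ρ ^ (d - 2 * κ)) := by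
  have hρ1 : 1 ≤ ρ := by rw [hρ]; exact le_max_left _ _
  have hρ0 : 0 < ρ := by linarith
  have hk := two_kappa_lt hc
  have hm : ∀ z : Eu d, Measurable fun b => tau lam V z b := meas_right ht hV
  have hi : ∀ (z : Eu d) (R : ℝ), Measurable fun b : Eu d => ind (b ∈ bal z R) := fun z R =>
    measurable_ind (p := fun b => b ∈ bal z R) (dom_bal z R).1
  have hg : ∀ (z : Eu d) (R : ℝ), Measurable fun b : Eu d => tau lam V z b * ind (b ∈ bal z R) :=
    fun z R => (hm z).mul (hi z R)
  have hs : ∀ j : ℕ, Measurable fun b : Eu d => ENNReal.ofReal (A / (2 ^ j * ρ) ^ (d - κ)) *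
      (tau lam V y b * ind (b ∈ bal y (2 ^ (j + 1) * ρ)) +
        tau lam V x b * ind (b ∈ bal x (2 ^ (j + 1) * ρ))) := fun j =>
    ((hg _ _).add (hg _ _)).const_mul _
  calc lam * ∫⁻ b in V, tau lam V x b * tau lam V b y
      ≤ lam * ∫⁻ b in V, ∑' j : ℕ, ENNReal.ofReal (A / (2 ^ j * ρ) ^ (d - κ)) *
      (tau lam V y b * ind (b ∈ bal y (2 ^ (j + 1) * ρ)) +
        tau lam V x b * ind (b ∈ bal x (2 ^ (j + 1) * ρ))) := by
        gcongr with b
        exact pointwise hc ht hV x y b ρ hρ
    _ = ∑' j : ℕ, ENNReal.ofReal (A / (2 ^ j * ρ) ^ (d - κ)) *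
        (lam * (∫⁻ b in V, tau lam V y b * ind (b ∈ bal y (2 ^ (j + 1) * ρ))) +
          lam * ∫⁻ b in V, tau lam V x b * ind (b ∈ bal x (2 ^ (j + 1) * ρ))) := by
        rw [lintegral_tsum fun j => (hs j).aemeasurable, ← ENNReal.tsum_mul_left]
        congr 1
        funext j
        have hadd : Measurable fun b : Eu d => tau lam V y b * ind (b ∈ bal y (2 ^ (j + 1) * ρ)) +
            tau lam V x b * ind (b ∈ bal x (2 ^ (j + 1) * ρ)) := (hg _ _).add (hg _ _)
        rw [lintegral_const_mul _ hadd, lintegral_add_left (hg _ _)]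
        ring
    _ ≤ ∑' j : ℕ, ENNReal.ofReal (2 * (A : ℝ) ^ 2 * 2 ^ κ / ρ ^ (d - 2 * κ)) * 2⁻¹ ^ j := by
        apply ENNReal.tsum_le_tsum
        intro j
        have h1 : (1 : ℝ) ≤ 2 ^ (j + 1) * ρ := by
          have : (1 : ℝ) ≤ 2 ^ (j + 1) := one_le_pow₀ (by norm_num)
          nlinarith
        calc ENNReal.ofReal (A / (2 ^ j * ρ) ^ (d - κ)) *
            (lam * (∫⁻ b in V, tau lam V y b * ind (b ∈ bal y (2 ^ (j + 1) * ρ))) +
              lam * ∫⁻ b in V, tau lam V x b * ind (b ∈ bal x (2 ^ (j + 1) * ρ)))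
            ≤ ENNReal.ofReal (A / (2 ^ j * ρ) ^ (d - κ)) *
              (A * ENNReal.ofReal ((2 ^ (j + 1) * ρ) ^ κ) +
                A * ENNReal.ofReal ((2 ^ (j + 1) * ρ) ^ κ)) := by
              exact mul_le_mul' le_rfl (add_le_add (ball_bound hc hV y h1) (ball_bound hc hV x h1))
          _ = ENNReal.ofReal (A / (2 ^ j * ρ) ^ (d - κ) * (2 * (A * (2 ^ (j + 1) * ρ) ^ κ))) := by
              rw [ENNReal.ofReal_mul (by positivity), ENNReal.ofReal_mul (by norm_num),
                ENNReal.ofReal_mul (by positivity), ENNReal.ofReal_coe_nnreal, ← two_mul]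
              norm_num
          _ ≤ ENNReal.ofReal (2 * (A : ℝ) ^ 2 * 2 ^ κ / ρ ^ (d - 2 * κ) * (1 / 2) ^ j) := by
              apply ENNReal.ofReal_le_ofReal
              have e1 : (2 ^ (j + 1) * ρ) ^ κ = 2 ^ κ * (2 ^ j * ρ) ^ κ := by
                rw [← mul_pow]
                congr 1
                ring
              have hpos : (0 : ℝ) < 2 ^ j * ρ := by positivity
              have e2 : (2 ^ j * ρ) ^ (d - κ) = (2 ^ j * ρ) ^ (d - 2 * κ) * (2 ^ j * ρ) ^ κ := by
                rw [← pow_add]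
                congr 1
                omega
              have e3 : (A : ℝ) / (2 ^ j * ρ) ^ (d - κ) * (2 * (A * (2 ^ (j + 1) * ρ) ^ κ))
                  = 2 * (A : ℝ) ^ 2 * 2 ^ κ / (2 ^ j * ρ) ^ (d - 2 * κ) := by
                rw [e1, e2]
                field_simp
              rw [e3]
              have e4 : 2 * (A : ℝ) ^ 2 * 2 ^ κ / ρ ^ (d - 2 * κ) * (1 / 2) ^ j
                  = 2 * (A : ℝ) ^ 2 * 2 ^ κ / (2 ^ j * ρ ^ (d - 2 * κ)) := by
                rw [one_div, inv_pow]
                field_simp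
              rw [e4]
              gcongr
              rw [mul_pow]
              gcongr
              exact le_self_pow₀ (one_le_pow₀ (by norm_num)) (by omega)
          _ = ENNReal.ofReal (2 * (A : ℝ) ^ 2 * 2 ^ κ / ρ ^ (d - 2 * κ)) * 2⁻¹ ^ j := by
              have hhalf : (2⁻¹ : ℝ≥0∞) ^ j = ENNReal.ofReal ((1 / 2 : ℝ) ^ j) := by
                rw [ENNReal.ofReal_pow (by norm_num)]
                congr 1
                rw [one_div, ENNReal.ofReal_inv_of_pos (by norm_num)]
                norm_num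
              rw [hhalf, ENNReal.ofReal_mul (by positivity)]
    _ = ENNReal.ofReal (4 * (A : ℝ) ^ 2 * 2 ^ κ / ρ ^ (d - 2 * κ)) := by
        rw [ENNReal.tsum_mul_left, ENNReal.tsum_geometric, ENNReal.one_sub_inv_two, inv_inv]
        have : (2 : ℝ≥0∞) = ENNReal.ofReal 2 := by norm_num
        rw [this, ← ENNReal.ofReal_mul (by positivity)]
        congr 1
        ring

/-- change of variables for the scaling `z ↦ z / r` -/
theorem scale_int {r : ℝ} (hr : 0 < r) (V : Set (Eu d)) (hV : MeasurableSet V)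
    (g : Eu d → ℝ≥0∞) (hg : Measurable g) :
    lamr d lam r * ∫⁻ b in V, g (r⁻¹ • b)
      = lam * ∫⁻ b in (fun z : Eu d => r⁻¹ • z) '' V, g b := by
  have hr' : r⁻¹ ≠ 0 := inv_ne_zero hr.ne'
  have himg : (fun z : Eu d => r⁻¹ • z) '' V = (fun z : Eu d => r • z) ⁻¹' V := by
    ext z
    constructor
    · rintro ⟨w, hw, rfl⟩
      show r • r⁻¹ • w ∈ V
      rwa [smul_inv_smul₀ hr.ne']
    · intro hz
      exact ⟨r • z, hz, inv_smul_smul₀ hr.ne' z⟩
  have hV' : MeasurableSet ((fun z : Eu d => r⁻¹ • z) '' V) := by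
    rw [himg]
    exact (measurable_const_smul r) hV
  have hmap := Measure.map_addHaar_smul (volume : Measure (Eu d)) hr'
  have e1 : ∫⁻ b in V, g (r⁻¹ • b)
      = ∫⁻ b, ((fun z : Eu d => r⁻¹ • z) '' V).indicator g b
          ∂(Measure.map (fun z : Eu d => r⁻¹ • z) volume) := by
    rw [lintegral_map (hg.indicator hV') (measurable_const_smul _), ← lintegral_indicator hV]
    congr 1
    funext b
    by_cases hb : b ∈ V
    · rw [indicator_of_mem hb, indicator_of_mem (mem_image_of_mem _ hb)]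
    · rw [indicator_of_notMem hb, indicator_of_notMem]
      rintro ⟨w, hw, hwb⟩
      apply hb
      have : w = b := smul_right_injective _ hr' hwb
      rwa [← this]
  rw [e1, hmap, lintegral_smul_measure, lintegral_indicator hV', smul_eq_mul, ← mul_assoc]
  congr 1
  unfold lamr
  have hfin : Module.finrank ℝ (Eu d) = d := by simp
  rw [hfin, inv_pow, inv_inv, abs_of_pos (by positivity)]
  show ((lam / Real.toNNReal (r ^ d) : ℝ≥0) : ℝ≥0∞) * ((Real.toNNReal (r ^ d) : ℝ≥0) : ℝ≥0∞) = lam
  rw [← ENNReal.coe_mul, div_mul_cancel₀]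
  exact (Real.toNNReal_pos.2 (by positivity)).ne'

end

theorem decr (hS : ScalStatement) (hT : TauFStatement) : DecRStatement := by
  intro d lam κ A hc
  have hk := two_kappa_lt hc
  have hd1 : 1 ≤ d := by omega
  have ht := hT d hd1
  have hA1 : (1 : ℝ) ≤ A := by exact_mod_cast hc.hA
  refine ⟨A * 2 ^ d + 4 * (A : ℝ) ^ 2 * 2 ^ κ * 4 ^ d, by positivity, ?_⟩
  intro r V x y hr1 hr2 hV
  have hr0 : 0 < r := by linarith
  obtain ⟨hscal, -⟩ := hS d lam r hd1 hr0
  set V' : Set (Eu d) := (fun z : Eu d => r⁻¹ • z) '' V with hV'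
  have hVd : Dom V' := by
    constructor
    · have himg : (fun z : Eu d => r⁻¹ • z) '' V = (fun z : Eu d => r • z) ⁻¹' V := by
        ext z
        constructor
        · rintro ⟨w, hw, rfl⟩
          show r • r⁻¹ • w ∈ V
          rwa [smul_inv_smul₀ hr0.ne']
        · intro hz
          exact ⟨r • z, hz, inv_smul_smul₀ hr0.ne' z⟩
      rw [hV', himg]
      exact (measurable_const_smul r) hV.1
    · rw [hV']
      exact hV.2.smul₀ r⁻¹
  have hdist : ∀ a b : Eu d, dist (r⁻¹ • a) (r⁻¹ • b) = dist a b / r := by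
    intro a b
    rw [dist_smul₀, Real.norm_of_nonneg (by positivity)]
    field_simp
  have hmax : max 1 (dist x y) / 2 ≤ max 1 (dist x y / r) := by
    rcases le_total (dist x y) 1 with h | h
    · rw [max_eq_left h]
      exact le_trans (by norm_num) (le_max_left _ _)
    · rw [max_eq_right h]
      refine le_trans ?_ (le_max_right _ _)
      gcongr
  have hM : 0 < max 1 (dist x y) := lt_of_lt_of_le one_pos (le_max_left _ _)
  constructor
  · rw [hscal V x y hV]
    refine (tau_decay hc ht hVd _ _).trans ?_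
    rw [hdist]
    apply ENNReal.ofReal_le_ofReal
    calc (A : ℝ) / (max 1 (dist x y / r)) ^ (d - κ)
        ≤ A / (max 1 (dist x y) / 2) ^ (d - κ) := by gcongr
      _ = A * 2 ^ (d - κ) / (max 1 (dist x y)) ^ (d - κ) := by
          rw [div_pow]
          field_simp
      _ ≤ _ := by
          gcongr
          calc (A : ℝ) * 2 ^ (d - κ) ≤ A * 2 ^ d := by
                gcongr
                · norm_num
                · omega
            _ ≤ _ := le_add_of_nonneg_right (by positivity)
  · have hm1 : ∀ z : Eu d, Measurable fun b => tau lam V' z b := meas_right ht hVd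
    have hm2 : Measurable fun b => tau lam V' b (r⁻¹ • y) := meas_left ht hVd _
    have e : ∀ b : Eu d, tp (ad r) (leb (lamr d lam r) V) x b * tp (ad r) (leb (lamr d lam r) V) b y
        = (fun b' => tau lam V' (r⁻¹ • x) b' * tau lam V' b' (r⁻¹ • y)) (r⁻¹ • b) := by
      intro b
      rw [hscal V x b hV, hscal V b y hV]
    simp only [e]
    have hsc := scale_int (lam := lam) hr0 V hV.1
      (fun b' => tau lam V' (r⁻¹ • x) b' * tau lam V' b' (r⁻¹ • y)) ((hm1 _).mul hm2)
    refine (le_of_eq hsc).trans ?_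
    refine (conv_decay hc ht hVd _ _ _ rfl).trans ?_
    rw [hdist]
    apply ENNReal.ofReal_le_ofReal
    have hmax2 : max 1 (dist x y) / 4 ≤ max 1 (dist x y / r / 2) := by
      rcases le_total (dist x y) 1 with h | h
      · rw [max_eq_left h]
        exact le_trans (by norm_num) (le_max_left _ _)
      · rw [max_eq_right h]
        refine le_trans ?_ (le_max_right _ _)
        rw [div_div]
        gcongr
        linarith
    calc 4 * (A : ℝ) ^ 2 * 2 ^ κ / (max 1 (dist x y / r / 2)) ^ (d - 2 * κ)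
        ≤ 4 * (A : ℝ) ^ 2 * 2 ^ κ / (max 1 (dist x y) / 4) ^ (d - 2 * κ) := by gcongr
      _ = 4 * (A : ℝ) ^ 2 * 2 ^ κ * 4 ^ (d - 2 * κ) / (max 1 (dist x y)) ^ (d - 2 * κ) := by
          rw [div_pow]
          field_simp
      _ ≤ _ := by
          gcongr
          calc 4 * (A : ℝ) ^ 2 * 2 ^ κ * 4 ^ (d - 2 * κ) ≤ 4 * (A : ℝ) ^ 2 * 2 ^ κ * 4 ^ d := by
                gcongr
                · norm_num
                · omega
            _ ≤ _ := le_add_of_nonneg_left (by positivity)

end Pool.Agent.Lib.MP_5349a4_pr.H70
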