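import Pool.Agent.Lib.MP_5349a4_pr.M.Iface2
import Pool.Agent.Lib.MP_5349a4_pr.M.Base

/-!
# ERRB (5.9): the error term of the reverse inequality is small
-/

set_option autoImplicit false
open MeasureTheory Set Filter
open scoped ENNReal NNReal Topology

namespace Pool.Agent.Lib.MP_5349a4_pr.H70

theorem Kt_anti (d : ℕ) (lam : ℝ≥0) {t t' : ℝ} (h : t ≤ t') : Kt d lam t' ≤ Kt d lam t := by
  unfold Kt tri box
  gcongr with u u
  · exact ind_mono fun hu => h.trans hu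
  · exact ind_mono fun hu => h.trans hu

/-- the levels -/
noncomputable def lev : ℕ → ℝ
  | 0 => 0
  | n + 1 => 2 ^ (n + 2)

theorem exists_level (t : ℝ) (ht : 0 ≤ t) : ∃ n : ℕ, lev n ≤ t ∧ t < 2 ^ (n + 2) := by
  by_cases h : t < 4
  · exact ⟨0, ht, by norm_num; exact h⟩
  · push Not at h
    obtain ⟨m, h1, h2⟩ := exists_nat_pow_near (by linarith : (1 : ℝ) ≤ t) (one_lt_two)
    have hm : 2 ≤ m := by
      by_contra hc
      push Not at hc
      have : (2 : ℝ) ^ (m + 1) ≤ 2 ^ 2 := pow_le_pow_right₀ (by norm_num) (by omega)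
      linarith
    obtain ⟨k, rfl⟩ : ∃ k, m = k + 2 := ⟨m - 2, by omega⟩
    exact ⟨k + 1, h1, h2⟩

theorem Kt_le_sum (d : ℕ) (lam : ℝ≥0) (t : ℝ) (ht : 0 ≤ t) :
    Kt d lam t ≤ ∑' n : ℕ, Kt d lam (lev n) * ind (t < 2 ^ (n + 2)) := by
  obtain ⟨n, h1, h2⟩ := exists_level t ht
  calc Kt d lam t ≤ Kt d lam (lev n) * ind (t < 2 ^ (n + 2)) := by
        rw [ind_of h2, mul_one]
        exact Kt_anti d lam h1
    _ ≤ _ := ENNReal.le_tsum n

theorem meas_snd {d : ℕ} {f : Eu d → Eu d → ℝ≥0∞}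
    (hf : Measurable fun q : Eu d × Eu d => f q.1 q.2) (z : Eu d) : Measurable fun b => f z b :=
  hf.comp (measurable_const.prodMk measurable_id)

theorem wt_tsum {d : ℕ} (ht : TauFacts d) (lam : ℝ≥0) {V : Set (Eu d)} (hV : Dom V)
    (c : ℕ → ℝ≥0∞) (g : ℕ → Eu d → ℝ≥0∞) (hg : ∀ n, Measurable (g n)) (x : Eu d) :
    wt lam V (fun b => ∑' n, c n * g n b) x = ∑' n, c n * wt lam V (g n) x := by
  unfold wt
  have hm : Measurable fun y => tau lam V x y := meas_snd (f := tau lam V) (ht.meas lam V hV) x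
  have e : ∫⁻ y in V, tau lam V x y * ∑' n, c n * g n y
      = ∑' n, c n * ∫⁻ y in V, tau lam V x y * g n y := by
    have e1 : ∀ y, tau lam V x y * ∑' n, c n * g n y
        = ∑' n, c n * (tau lam V x y * g n y) := by
      intro y
      rw [← ENNReal.tsum_mul_left]
      congr 1
      funext n
      ring
    simp only [e1]
    have hm1 : ∀ n, Measurable fun y => tau lam V x y * g n y := fun n => hm.mul (hg n)
    have hm2 : ∀ n, Measurable fun y => c n * (tau lam V x y * g n y) :=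
      fun n => (hm1 n).const_mul (c n)
    rw [lintegral_tsum fun n => (hm2 n).aemeasurable]
    congr 1
    funext n
    rw [lintegral_const_mul _ (hm1 n)]
  rw [e, ← ENNReal.tsum_mul_left, ← ENNReal.tsum_add]
  congr 1
  funext n
  ring

theorem Err_le {d : ℕ} (hd : 1 ≤ d) (ht : TauFacts d) (lam : ℝ≥0) (hH : Hyp d lam)
    (hDep : DepStatement) (s : ℝ) (hs : 0 ≤ s) :
    Err d lam s ≤ ∑' n : ℕ, Kt d lam (lev n) * (Gam d : ℝ≥0∞) ^ (n + 5) := by
  have hV := dom_bal (0 : Eu d) s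
  have hm : ∀ n : ℕ, Measurable fun b : Eu d => ind (s - ‖b‖ < 2 ^ (n + 2)) := fun n =>
    measurable_ind (measurableSet_lt (measurable_const.sub measurable_norm) measurable_const)
  calc Err d lam s
      ≤ wt lam (bal (0 : Eu d) s)
          (fun b => ∑' n : ℕ, Kt d lam (lev n) * ind (s - ‖b‖ < 2 ^ (n + 2))) 0 := by
        unfold Err wt
        gcongr ?_ + _ * ?_
        · exact Kt_le_sum d lam _ (by simpa using hs)
        · apply setLIntegral_mono' hV.1
          intro y hy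
          have : ‖y‖ ≤ s := by
            unfold bal at hy
            rwa [mem_closedBall_zero_iff] at hy
          gcongr
          exact Kt_le_sum d lam _ (by linarith)
    _ = ∑' n : ℕ, Kt d lam (lev n) * dep d lam s (2 ^ (n + 2)) := wt_tsum ht lam hV _ _ hm 0
    _ ≤ _ := by
        gcongr with n
        exact hDep d hd ht lam hH (n + 2) s hs

/-- the arithmetic of large dimensions -/
theorem large (C : ℝ) : ∀ᶠ d : ℕ in atTop, C * (12800 * (d : ℝ)) ^ 67 * (9 / 10 : ℝ) ^ d ≤ 1 / 2 ∧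
    160 * (12800 * (d : ℝ)) ^ 57 * (1 / 2 : ℝ) ^ d ≤ 1 / 2 ∧
    4 * (12800 * (d : ℝ)) ^ 5 * (1 / 2 : ℝ) ^ d ≤ 1 := by
  have key : ∀ (B : ℝ) (k : ℕ) (r : ℝ), |r| < 1 → ∀ e : ℝ, 0 < e →
      ∀ᶠ d : ℕ in atTop, B * (12800 * (d : ℝ)) ^ k * r ^ d ≤ e := by
    intro B k r hr e he
    have h1 := tendsto_pow_const_mul_const_pow_of_abs_lt_one k hr
    have h2 := h1.const_mul (B * 12800 ^ k)
    rw [mul_zero] at h2
    have h3 := h2.eventually (eventually_lt_nhds he)
    filter_upwards [h3] with d hd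
    calc B * (12800 * (d : ℝ)) ^ k * r ^ d = B * 12800 ^ k * ((d : ℝ) ^ k * r ^ d) := by
          rw [mul_pow]; ring
      _ ≤ e := hd.le
  have a1 := key C 67 (9 / 10) (by rw [abs_of_pos] <;> norm_num) (1 / 2) (by norm_num)
  have a2 := key 160 57 (1 / 2) (by rw [abs_of_pos] <;> norm_num) (1 / 2) (by norm_num)
  have a3 := key 4 5 (1 / 2) (by rw [abs_of_pos] <;> norm_num) 1 (by norm_num)
  filter_upwards [a1, a2, a3] with d h1 h2 h3
  exact ⟨h1, h2, h3⟩

theorem errb (hF : FarStatement) (hN : NearStatement) (hDep : DepStatement) : ErrBStatement := by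
  obtain ⟨dF, hF⟩ := hF
  obtain ⟨dN, C, hN⟩ := hN
  obtain ⟨d1, hd1⟩ := eventually_atTop.1 (large C)
  refine ⟨dF + dN + d1 + 1, ?_⟩
  intro d hd ht lam hH s hs
  have hd0 : 1 ≤ d := by omega
  obtain ⟨hFar, -⟩ := hF d (by omega) ht lam hH
  have hNear := hN d (by omega) ht lam hH
  obtain ⟨r1, r2, r3⟩ := hd1 d (by omega)
  have hErr := Err_le hd0 ht lam hH hDep s hs
  -- real numbers
  have hdr : (0 : ℝ) < d := by exact_mod_cast hd0
  obtain ⟨G, hG⟩ : ∃ G : ℝ, G = 12800 * (d : ℝ) := ⟨_, rfl⟩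
  rw [← hG] at r1 r2 r3
  have hGpos : 0 < G := by rw [hG]; positivity
  have hΓ : (Gam d : ℝ≥0∞) = ENNReal.ofReal G := by
    rw [← ENNReal.ofReal_coe_nnreal]
    congr 1
    rw [hG]
    unfold Gam
    push_cast
    rfl
  obtain ⟨p, hp⟩ : ∃ p : ℝ, p = 2 ^ (d - 1) := ⟨_, rfl⟩
  have hppos : 0 < p := by rw [hp]; positivity
  have hp2 : (2 : ℝ) ^ d = 2 * p := by
    rw [hp, ← pow_succ']
    congr 1
    omega
  have hph : (1 / 2 : ℝ) ^ d = 1 / (2 * p) := by
    rw [one_div, inv_pow, hp2, one_div]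
  have hg : ((gd d / 2 : ℝ≥0) : ℝ≥0∞) = ENNReal.ofReal (1 / G) := by
    rw [← ENNReal.ofReal_coe_nnreal]
    congr 1
    unfold gd
    push_cast
    rw [hG]
    field_simp
    norm_num
  -- the first term
  have t0 : Kt d lam (lev 0) * (Gam d : ℝ≥0∞) ^ (0 + 5)
      ≤ ENNReal.ofReal (C * (9 / 10 : ℝ) ^ d * G ^ 66) := by
    show Kt d lam 0 * (Gam d : ℝ≥0∞) ^ 5 ≤ _
    calc Kt d lam 0 * (Gam d : ℝ≥0∞) ^ 5
        ≤ C * ENNReal.ofReal ((9 / 10 : ℝ) ^ d) * (Gam d : ℝ≥0∞) ^ 61 * (Gam d : ℝ≥0∞) ^ 5 := by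
          gcongr
      _ = ENNReal.ofReal (C * (9 / 10 : ℝ) ^ d * G ^ 66) := by
          rw [hΓ, mul_assoc, ← pow_add, ENNReal.ofReal_mul (by positivity),
            ENNReal.ofReal_mul (by positivity), ENNReal.ofReal_pow hGpos.le,
            ENNReal.ofReal_coe_nnreal]
  -- the other terms
  have tn : ∀ n : ℕ, Kt d lam (lev (n + 1)) * (Gam d : ℝ≥0∞) ^ (n + 1 + 5)
      ≤ ENNReal.ofReal (40 * G ^ 56 / p) * 2⁻¹ ^ n := by
    intro n
    have h := hFar (n + 2) (by omega)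
    have hP0 : (2 : ℝ≥0∞) ^ ((n + 2) * (d - 1)) ≠ 0 := by positivity
    have hPt : (2 : ℝ≥0∞) ^ ((n + 2) * (d - 1)) ≠ ∞ := ENNReal.pow_ne_top (by norm_num)
    have h1 : Kt d lam (lev (n + 1))
        ≤ 20 * 2 ^ d * (Gam d : ℝ≥0∞) ^ (4 * (n + 2) + 42) / 2 ^ ((n + 2) * (d - 1)) := by
      rw [ENNReal.le_div_iff_mul_le (Or.inl hP0) (Or.inl hPt)]
      exact h
    have hhalf : (2⁻¹ : ℝ≥0∞) ^ n = ENNReal.ofReal ((1 / 2 : ℝ) ^ n) := by
      rw [ENNReal.ofReal_pow (by norm_num)]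
      congr 1
      rw [one_div, ENNReal.ofReal_inv_of_pos (by norm_num)]
      norm_num
    have h2 : (20 : ℝ≥0∞) * 2 ^ d * (Gam d : ℝ≥0∞) ^ (4 * (n + 2) + 42) / 2 ^ ((n + 2) * (d - 1))
        = ENNReal.ofReal (20 * 2 ^ d * G ^ (4 * (n + 2) + 42) / p ^ (n + 2)) := by
      rw [ENNReal.ofReal_div_of_pos (by positivity), ENNReal.ofReal_mul (by positivity),
        ENNReal.ofReal_mul (by positivity), ENNReal.ofReal_pow (by norm_num),
        ENNReal.ofReal_pow hGpos.le, hΓ, hp, ← pow_mul, ENNReal.ofReal_pow (by norm_num),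
        mul_comm (d - 1) (n + 2)]
      norm_num
    calc Kt d lam (lev (n + 1)) * (Gam d : ℝ≥0∞) ^ (n + 1 + 5)
        ≤ ENNReal.ofReal (20 * 2 ^ d * G ^ (4 * (n + 2) + 42) / p ^ (n + 2)) *
          (Gam d : ℝ≥0∞) ^ (n + 1 + 5) := by
          gcongr
          exact h1.trans_eq h2
      _ = ENNReal.ofReal (20 * 2 ^ d * G ^ (4 * (n + 2) + 42) / p ^ (n + 2) * G ^ (n + 1 + 5)) := by
          rw [hΓ, ENNReal.ofReal_mul (by positivity), ENNReal.ofReal_pow hGpos.le]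
      _ ≤ ENNReal.ofReal (40 * G ^ 56 / p * (1 / 2) ^ n) := by
          apply ENNReal.ofReal_le_ofReal
          rw [hp2]
          have e : 20 * (2 * p) * G ^ (4 * (n + 2) + 42) / p ^ (n + 2) * G ^ (n + 1 + 5)
              = 40 * G ^ 56 / p * (G ^ 5 / p) ^ n := by
            have hp0 : p ≠ 0 := hppos.ne'
            have a1 : G ^ (4 * (n + 2) + 42) * G ^ (n + 1 + 5) = G ^ 56 * (G ^ 5) ^ n := by
              rw [← pow_add, ← pow_mul, ← pow_add]
              congr 1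
              ring
            calc 20 * (2 * p) * G ^ (4 * (n + 2) + 42) / p ^ (n + 2) * G ^ (n + 1 + 5)
                = 40 * p * (G ^ (4 * (n + 2) + 42) * G ^ (n + 1 + 5)) / p ^ (n + 2) := by ring
              _ = 40 * p * (G ^ 56 * (G ^ 5) ^ n) / (p ^ n * p ^ 2) := by rw [a1, pow_add]
              _ = 40 * G ^ 56 / p * (G ^ 5 / p) ^ n := by
                  rw [div_pow]
                  field_simp
          rw [e]
          have h5 : G ^ 5 / p ≤ 1 / 2 := by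
            rw [hph] at r3
            rw [div_le_iff₀ hppos]
            have : 4 * G ^ 5 * (1 / (2 * p)) = 2 * G ^ 5 / p := by
              have : p ≠ 0 := hppos.ne'
              field_simp
              ring
            rw [this, div_le_one hppos] at r3
            linarith
          gcongr
      _ = ENNReal.ofReal (40 * G ^ 56 / p) * 2⁻¹ ^ n := by
          rw [ENNReal.ofReal_mul (by positivity), hhalf]
  have hsum : ∑' n : ℕ, Kt d lam (lev n) * (Gam d : ℝ≥0∞) ^ (n + 5)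
      ≤ ENNReal.ofReal (C * (9 / 10 : ℝ) ^ d * G ^ 66) + ENNReal.ofReal (80 * G ^ 56 / p) := by
    rw [tsum_eq_zero_add' ENNReal.summable]
    refine add_le_add t0 ?_
    refine (ENNReal.tsum_le_tsum tn).trans ?_
    rw [ENNReal.tsum_mul_left, ENNReal.tsum_geometric, ENNReal.one_sub_inv_two, inv_inv]
    have : (2 : ℝ≥0∞) = ENNReal.ofReal 2 := by norm_num
    rw [this, ← ENNReal.ofReal_mul (by positivity)]
    apply ENNReal.ofReal_le_ofReal
    apply le_of_eq
    ring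
  refine hErr.trans (hsum.trans ?_)
  rw [← ENNReal.ofReal_add (by positivity) (by positivity), hg]
  apply ENNReal.ofReal_le_ofReal
  rw [le_div_iff₀ hGpos]
  have e1 : (C * (9 / 10 : ℝ) ^ d * G ^ 66 + 80 * G ^ 56 / p) * G
      = C * G ^ 67 * (9 / 10 : ℝ) ^ d + 160 * G ^ 57 * (1 / 2 : ℝ) ^ d := by
    rw [hph]
    have : p ≠ 0 := hppos.ne'
    field_simp
    ring
  rw [e1]
  linarith

end Pool.Agent.Lib.MP_5349a4_pr.H70
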