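import Pool.Agent.Lib.MP_5349a4_pr.M.Iface2
import Pool.Agent.Lib.MP_5349a4_pr.M.Base

/-!
# NEAR (5.8): the diagrams at distance zero
-/

set_option autoImplicit false
open MeasureTheory Set
open scoped ENNReal NNReal

namespace Pool.Agent.Lib.MP_5349a4_pr.H70

variable {d : ℕ}

/-! ## Convolution -/

theorem conv_eq (f g : Eu d → ℝ≥0∞) : conv f g = lconvolution f g volume := by
  funext z
  unfold conv lconvolution
  congr 1
  funext u
  rw [sub_eq_neg_add]

theorem conv_meas {f g : Eu d → ℝ≥0∞} (hf : Measurable f) (hg : Measurable g) :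
    Measurable (conv f g) := by
  rw [conv_eq]
  exact measurable_lconvolution volume hf hg

theorem conv_comm (f g : Eu d → ℝ≥0∞) : conv f g = conv g f := by
  rw [conv_eq, conv_eq, lconvolution_comm]

theorem conv_assoc {f g h : Eu d → ℝ≥0∞} (hf : Measurable f) (hg : Measurable g)
    (hh : Measurable h) : conv f (conv g h) = conv (conv f g) h := by
  rw [conv_eq, conv_eq, conv_eq, conv_eq, lconvolution_assoc hf hg hh]

theorem conv_mono {f g h : Eu d → ℝ≥0∞} (hgh : ∀ z, g z ≤ h z) (z : Eu d) :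
    conv f g z ≤ conv f h z :=
  lintegral_mono fun _ => mul_le_mul_right (hgh _) _

theorem conv_left_comm {f g h : Eu d → ℝ≥0∞} (hf : Measurable f) (hg : Measurable g)
    (hh : Measurable h) : conv f (conv g h) = conv g (conv f h) := by
  rw [conv_assoc hf hg hh, conv_comm f g, ← conv_assoc hg hf hh]

/-- the operator `f ↦ f + lam T * f` -/
noncomputable def Sop (T : Eu d → ℝ≥0∞) (lam : ℝ≥0∞) (f : Eu d → ℝ≥0∞) (z : Eu d) : ℝ≥0∞ :=
  f z + lam * conv T f z

theorem Sop_meas {T f : Eu d → ℝ≥0∞} {lam : ℝ≥0∞} (hT : Measurable T) (hf : Measurable f) :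
    Measurable (Sop T lam f) :=
  hf.add ((conv_meas hT hf).const_mul _)

theorem Sop_mono {T f g : Eu d → ℝ≥0∞} {lam : ℝ≥0∞} (h : ∀ z, f z ≤ g z) (z : Eu d) :
    Sop T lam f z ≤ Sop T lam g z :=
  add_le_add (h z) (mul_le_mul_right (conv_mono h z) _)

theorem conv_Sop {T f g : Eu d → ℝ≥0∞} {lam : ℝ≥0∞} (hT : Measurable T) (hf : Measurable f)
    (hg : Measurable g) : conv g (Sop T lam f) = Sop T lam (conv g f) := by
  funext z
  have h1 : conv g (Sop T lam f) z = conv g f z + lam * conv g (conv T f) z := by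
    unfold Sop
    show ∫⁻ u, g u * (f (z - u) + lam * conv T f (z - u)) = _
    have e : ∀ u, g u * (f (z - u) + lam * conv T f (z - u))
        = g u * f (z - u) + lam * (g u * conv T f (z - u)) := by
      intro u
      ring
    simp only [e]
    have m1 : Measurable fun u => g u * f (z - u) :=
      hg.mul (hf.comp (measurable_const.sub measurable_id))
    have m2 : Measurable fun u => g u * conv T f (z - u) :=
      hg.mul ((conv_meas hT hf).comp (measurable_const.sub measurable_id))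
    rw [lintegral_add_left m1, lintegral_const_mul _ m2]
    rfl
  rw [h1, conv_left_comm hg hT hf]
  rfl

/-- three factors `T`, each replaced by `D + lam T * D` -/
theorem three {T D : Eu d → ℝ≥0∞} {lam : ℝ≥0∞} (hT : Measurable T) (hD : Measurable D)
    (h : ∀ z, T z ≤ Sop T lam D z) (z : Eu d) :
    conv T (conv T T) z ≤ Sop T lam (Sop T lam (Sop T lam (conv D (conv D D)))) z := by
  have hDD : Measurable (conv D D) := conv_meas hD hD
  have s1 : ∀ z, conv T (conv T T) z ≤ Sop T lam (conv T (conv T D)) z := by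
    intro z
    have : conv T (conv T (Sop T lam D)) = Sop T lam (conv T (conv T D)) := by
      rw [conv_Sop hT hD hT, conv_Sop hT (conv_meas hT hD) hT]
    rw [← this]
    exact conv_mono (fun w => conv_mono h w) z
  have s2 : ∀ z, conv T (conv T D) z ≤ Sop T lam (conv T (conv D D)) z := by
    intro z
    have : conv T (conv D (Sop T lam D)) = Sop T lam (conv T (conv D D)) := by
      rw [conv_Sop hT hD hD, conv_Sop hT hDD hT]
    rw [← this, conv_comm T D]
    exact conv_mono (fun w => conv_mono h w) z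
  have s3 : ∀ z, conv T (conv D D) z ≤ Sop T lam (conv D (conv D D)) z := by
    intro z
    have : conv (conv D D) (Sop T lam D) = Sop T lam (conv D (conv D D)) := by
      rw [conv_Sop hT hD hDD, conv_assoc hD hD hD]
    rw [← this, conv_comm T]
    exact conv_mono h z
  calc conv T (conv T T) z ≤ Sop T lam (conv T (conv T D)) z := s1 z
    _ ≤ Sop T lam (Sop T lam (conv T (conv D D))) z := Sop_mono s2 z
    _ ≤ _ := Sop_mono (fun w => Sop_mono s3 w) z

theorem expand {T G : Eu d → ℝ≥0∞} {lam : ℝ≥0∞} (hT : Measurable T) (hG : Measurable G)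
    (z : Eu d) : Sop T lam (Sop T lam (Sop T lam G)) z
      = G z + 3 * (lam * conv T G z) + 3 * (lam ^ 2 * conv (cpow T 1) G z)
        + lam ^ 3 * conv (cpow T 2) G z := by
  have hTG : Measurable (conv T G) := conv_meas hT hG
  have hTT : Measurable (conv T T) := conv_meas hT hT
  have e1 : conv T (conv T G) = conv (cpow T 1) G := by
    rw [conv_assoc hT hT hG]
    rfl
  have e2 : conv T (conv (cpow T 1) G) = conv (cpow T 2) G := by
    show conv T (conv (conv T T) G) = conv (conv T (conv T T)) G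
    rw [conv_assoc hT hTT hG]
  have r1 : ∀ H : Eu d → ℝ≥0∞, Measurable H → ∀ z, Sop T lam (Sop T lam H) z
      = H z + 2 * (lam * conv T H z) + lam ^ 2 * conv T (conv T H) z := by
    intro H hH z
    show Sop T lam H z + lam * conv T (Sop T lam H) z = _
    rw [conv_Sop hT hH hT]
    unfold Sop
    ring
  show Sop T lam (Sop T lam G) z + lam * conv T (Sop T lam (Sop T lam G)) z = _
  rw [conv_Sop hT (Sop_meas hT hG) hT, conv_Sop hT hG hT, r1 G hG, r1 (conv T G) hTG, e1, e2]
  ring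

theorem supp_conv {f g : Eu d → ℝ≥0∞} {r s : ℝ} (hf : ∀ u, f u ≠ 0 → ‖u‖ ≤ r)
    (hg : ∀ u, g u ≠ 0 → ‖u‖ ≤ s) (z : Eu d) (hz : conv f g z ≠ 0) : ‖z‖ ≤ r + s := by
  by_contra hc
  apply hz
  unfold conv
  have : ∀ u, f u * g (z - u) = 0 := by
    intro u
    by_contra hne
    have h1 := hf u (left_ne_zero_of_mul hne)
    have h2 := hg (z - u) (right_ne_zero_of_mul hne)
    apply hc
    calc ‖z‖ = ‖u + (z - u)‖ := by rw [add_sub_cancel]
      _ ≤ ‖u‖ + ‖z - u‖ := norm_add_le _ _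
      _ ≤ r + s := add_le_add h1 h2
  simp only [this, lintegral_zero]

theorem conv_zero_le {f G : Eu d → ℝ≥0∞} {m : ℝ≥0∞} (hf : Measurable f)
    (hm : ∀ z, G z ≤ m) (hs : ∀ z, G z ≠ 0 → ‖z‖ ≤ 16) :
    conv f G 0 ≤ m * ∫⁻ z in bal (0 : Eu d) 16, f z := by
  have hb : MeasurableSet (bal (0 : Eu d) 16) := (dom_bal 0 16).1
  have hmm : Measurable fun a : Eu d => ind (a ∈ bal (0 : Eu d) 16) * f a :=
    (measurable_ind (p := fun a => a ∈ bal (0 : Eu d) 16) hb).mul hf
  rw [← lintegral_mul_ind hb, ← lintegral_const_mul _ hmm]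
  apply lintegral_mono
  intro u
  by_cases h : G (0 - u) = 0
  · simp only [h, mul_zero]
    exact zero_le
  · have h1 := hs _ h
    have h2 : u ∈ bal (0 : Eu d) 16 := by
      unfold bal
      rw [mem_closedBall_zero_iff]
      simpa using h1
    show f u * G (0 - u) ≤ m * (ind (u ∈ bal (0 : Eu d) 16) * f u)
    rw [ind_of h2, one_mul, mul_comm]
    exact mul_le_mul_left (hm _) _

theorem int_even {T H : Eu d → ℝ≥0∞} (hT : ∀ z, T (-z) = T z) :
    ∫⁻ u, T u * H u = conv T H 0 := by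
  unfold conv
  rw [← lintegral_neg_eq_self (fun u => T u * H u)]
  congr 1
  funext u
  rw [hT, zero_sub]

/-! ## The module -/

theorem near (hI : TInfStatement) (hF : FarStatement) (hL : LensStatement) (hS : SlbStatement) :
    NearStatement := by
  obtain ⟨d0, hd0⟩ := hF
  refine ⟨d0 + 1, 368, ?_⟩
  intro d hd ht lam hH
  have hd1 : 1 ≤ d := by omega
  obtain ⟨hTm, hT1, hTe, -, hTD, -, -⟩ := hI d hd1 ht lam
  obtain ⟨-, hFar⟩ := hd0 d (by omega) ht lam hH
  have hphi : phi d lam 0 = lam * volume (bal (0 : Eu d) 1) := (hS d hd1 ht).2.2.1 lam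
  set T : Eu d → ℝ≥0∞ := tI lam with hTdef
  set D : Eu d → ℝ≥0∞ := fun u => ind (‖u‖ ≤ 1) with hDdef
  set L : ℝ≥0∞ := (lam : ℝ≥0∞) with hLdef
  set v : ℝ≥0∞ := volume (bal (0 : Eu d) 1) with hv
  set q : ℝ≥0∞ := ENNReal.ofReal ((9 / 10 : ℝ) ^ d) with hq
  set Γ : ℝ≥0∞ := (Gam d : ℝ≥0∞) with hΓ
  have hDm : Measurable D := measurable_ind (measurableSet_le measurable_norm measurable_const)
  -- mass of the unit ball
  have hmu : L * v ≤ 2 := by
    rw [← hphi]
    refine (hH 0 le_rfl).trans ?_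
    have : (gd d : ℝ≥0∞) ≤ 1 := by
      have h1 : gd d ≤ 1 := by
        unfold gd
        have : (1 : ℝ≥0) ≤ 6400 * (d : ℝ≥0) := by
          have : (1 : ℝ≥0) ≤ (d : ℝ≥0) := by exact_mod_cast hd1
          calc (1 : ℝ≥0) ≤ 6400 * 1 := by norm_num
            _ ≤ 6400 * (d : ℝ≥0) := by gcongr
        rw [one_div]
        exact inv_le_one_of_one_le₀ this
      exact_mod_cast h1
    calc (1 : ℝ≥0∞) + (gd d : ℝ≥0∞) ≤ 1 + 1 := by gcongr
      _ = 2 := by norm_num
  have hΓ1 : 1 ≤ Γ ^ 61 := by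
    apply one_le_pow₀
    rw [hΓ]
    have h1 : (1 : ℝ≥0) ≤ Gam d := by
      unfold Gam
      have : (1 : ℝ≥0) ≤ (d : ℝ≥0) := by exact_mod_cast hd1
      calc (1 : ℝ≥0) ≤ 12800 * 1 := by norm_num
        _ ≤ 12800 * (d : ℝ≥0) := by gcongr
    exact_mod_cast h1
  -- the function `G = D * D * D`
  set G : Eu d → ℝ≥0∞ := conv D (conv D D) with hG
  have hGm : Measurable G := conv_meas hDm (conv_meas hDm hDm)
  set m : ℝ≥0∞ := 2 * q * v ^ 2 with hm
  have hGle : ∀ z, G z ≤ m := fun z => hL d hd1 z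
  have hDs : ∀ u, D u ≠ 0 → ‖u‖ ≤ 1 := by
    intro u hu
    by_contra hc
    exact hu (ind_not hc)
  have hGs : ∀ z, G z ≠ 0 → ‖z‖ ≤ 16 := by
    intro z hz
    have := supp_conv hDs (supp_conv hDs hDs) z hz
    linarith
  -- the bounds for the convolutions with `G`
  have hcm : ∀ j, Measurable (cpow T j) := by
    intro j
    induction j with
    | zero => exact hTm
    | succ j ih => exact conv_meas hTm ih
  set B : ℝ≥0∞ := 2 * Γ ^ 61 with hB
  have hc : ∀ j, j ≤ 3 → L ^ (j + 1) * conv (cpow T j) G 0 ≤ m * B := by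
    intro j hj
    calc L ^ (j + 1) * conv (cpow T j) G 0
        ≤ L ^ (j + 1) * (m * ∫⁻ z in bal (0 : Eu d) 16, cpow T j z) := by
          gcongr
          exact conv_zero_le (hcm j) hGle hGs
      _ = m * (L ^ (j + 1) * ∫⁻ z in bal (0 : Eu d) 16, cpow T j z) := by ring
      _ ≤ m * B := by
          gcongr
          exact hFar j hj
  have c0 : L * conv T G 0 ≤ m * B := by simpa [cpow] using hc 0 (by norm_num)
  have c1 : L ^ 2 * conv (cpow T 1) G 0 ≤ m * B := hc 1 (by norm_num)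
  have c2 : L ^ 3 * conv (cpow T 2) G 0 ≤ m * B := hc 2 (by norm_num)
  have c3 : L ^ 4 * conv (cpow T 3) G 0 ≤ m * B := hc 3 (by norm_num)
  have hTS : ∀ z, T z ≤ Sop T L D z := by
    intro z
    have := hTD z
    unfold Sop
    rw [conv_comm T D]
    exact this
  have h3 := three hTm hDm hTS
  -- the triangle
  have htri : tri d lam 0 ≤ L ^ 2 * (m * (1 + 7 * B)) := by
    unfold tri
    gcongr
    have e : ∀ u : Eu d, ind ((0 : ℝ) ≤ ‖u‖) * (tI lam u * conv (tI lam) (tI lam) u)
        = T u * conv T T u := by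
      intro u
      rw [ind_of (norm_nonneg u), one_mul]
    simp only [e]
    rw [int_even hTe]
    refine (h3 0).trans ?_
    rw [expand hTm hGm]
    calc G 0 + 3 * (L * conv T G 0) + 3 * (L ^ 2 * conv (cpow T 1) G 0)
          + L ^ 3 * conv (cpow T 2) G 0
        ≤ m + 3 * (m * B) + 3 * (m * B) + m * B := by
          gcongr
          exact hGle 0
      _ = m * (1 + 7 * B) := by ring
  have hbox : box d lam 0 ≤ L ^ 2 * (m * (8 * B)) := by
    unfold box
    have e : ∀ u : Eu d, ind ((0 : ℝ) ≤ ‖u‖) *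
        (tI lam u * conv (tI lam) (conv (tI lam) (tI lam)) u) = T u * conv T (conv T T) u := by
      intro u
      rw [ind_of (norm_nonneg u), one_mul]
    simp only [e]
    rw [int_even hTe]
    have h4 : conv T (conv T (conv T T)) 0 ≤ conv T G 0 + 3 * (L * conv (cpow T 1) G 0)
        + 3 * (L ^ 2 * conv (cpow T 2) G 0) + L ^ 3 * conv (cpow T 3) G 0 := by
      refine (conv_mono h3 0).trans ?_
      rw [conv_Sop hTm (Sop_meas hTm (Sop_meas hTm hGm)) hTm,
        conv_Sop hTm (Sop_meas hTm hGm) hTm, conv_Sop hTm hGm hTm,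
        expand hTm (conv_meas hTm hGm)]
      have e1 : conv T (conv T G) = conv (cpow T 1) G := by
        rw [conv_assoc hTm hTm hGm]
        rfl
      have e2 : conv (cpow T 1) (conv T G) = conv (cpow T 2) G := by
        rw [conv_left_comm (hcm 1) hTm hGm, conv_assoc hTm (hcm 1) hGm]
        rfl
      have e3 : conv (cpow T 2) (conv T G) = conv (cpow T 3) G := by
        rw [conv_left_comm (hcm 2) hTm hGm, conv_assoc hTm (hcm 2) hGm]
        rfl
      rw [e1, e2, e3]
    calc L ^ 3 * conv T (conv T (conv T T)) 0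
        ≤ L ^ 3 * (conv T G 0 + 3 * (L * conv (cpow T 1) G 0)
          + 3 * (L ^ 2 * conv (cpow T 2) G 0) + L ^ 3 * conv (cpow T 3) G 0) := by gcongr
      _ = L ^ 2 * (L * conv T G 0 + 3 * (L ^ 2 * conv (cpow T 1) G 0)
          + 3 * (L ^ 3 * conv (cpow T 2) G 0) + L ^ 4 * conv (cpow T 3) G 0) := by ring
      _ ≤ L ^ 2 * (m * B + 3 * (m * B) + 3 * (m * B) + m * B) := by gcongr
      _ = L ^ 2 * (m * (8 * B)) := by ring
  unfold Kt
  calc 2 * tri d lam 0 + box d lam 0
      ≤ 2 * (L ^ 2 * (m * (1 + 7 * B))) + L ^ 2 * (m * (8 * B)) := by gcongr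
    _ = 2 * q * (L * v) ^ 2 * (2 + 44 * Γ ^ 61) := by
        rw [hm, hB]
        ring
    _ ≤ 2 * q * 2 ^ 2 * (2 * Γ ^ 61 + 44 * Γ ^ 61) := by
        gcongr
        calc (2 : ℝ≥0∞) = 2 * 1 := by ring
          _ ≤ 2 * Γ ^ 61 := by gcongr
    _ = (368 : ℝ≥0∞) * q * Γ ^ 61 := by ring
    _ = ((368 : ℝ≥0) : ℝ≥0∞) * q * Γ ^ 61 := by norm_num

end Pool.Agent.Lib.MP_5349a4_pr.H70
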